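import Mathlib
import Pool.Agent.Hhelper79.LT.Four

set_option autoImplicit false

/-!
Squares obtained from the addition table of `ZMod n` by permuting the rows `0, 1, 2, b` in each
column (row maps), and criteria in terms of natural numbers.
-/

namespace Pool.Agent.Hhelper51.LT

open Finset Pool.Agent.Hhelper79.LT

/-- in column `c`, row `i` carries the symbol of row `rm c i` of the addition table -/
def sq (n : ℕ) (rm : ℕ → ℕ → ℕ) (i c : ZMod n) : ZMod n := ((rm c.val i.val : ℕ) : ZMod n) + c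

theorem cast_cases {n x y : ℕ} (hx : x < 2 * n) (hy : y < 2 * n)
    (h : (x : ZMod n) = (y : ZMod n)) : x = y ∨ x = y + n ∨ y = x + n := by
  have h1 : x % n = y % n := (ZMod.natCast_eq_natCast_iff' x y n).1 h
  have hx' : x % n = x ∨ x % n = x - n ∧ n ≤ x := by
    rcases Nat.lt_or_ge x n with h2 | h2
    · left; exact Nat.mod_eq_of_lt h2
    · right; exact ⟨by rw [Nat.mod_eq_sub_mod h2, Nat.mod_eq_of_lt (by omega)], h2⟩
  have hy' : y % n = y ∨ y % n = y - n ∧ n ≤ y := by
    rcases Nat.lt_or_ge y n with h2 | h2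
    · left; exact Nat.mod_eq_of_lt h2
    · right; exact ⟨by rw [Nat.mod_eq_sub_mod h2, Nat.mod_eq_of_lt (by omega)], h2⟩
  omega

variable {n : ℕ} {rm : ℕ → ℕ → ℕ}

theorem latin_of [NeZero n] (hrm : ∀ c r, c < n → r < n → rm c r < n)
    (hcol : ∀ c r r', c < n → r < n → r' < n → rm c r = rm c r' → r = r')
    (hrow : ∀ r c c', r < n → c < n → c' < n →
      (rm c r + c = rm c' r + c' ∨ rm c r + c = rm c' r + c' + n ∨
        rm c' r + c' = rm c r + c + n) → c = c') : IsLatin (sq n rm) := by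
  constructor
  · intro i c c' h
    have h0 : ((rm c.val i.val + c.val : ℕ) : ZMod n) = ((rm c'.val i.val + c'.val : ℕ) : ZMod n) := by
      push_cast
      rw [ZMod.natCast_zmod_val, ZMod.natCast_zmod_val]
      exact h
    have hc := ZMod.val_lt c
    have hc' := ZMod.val_lt c'
    have hi := ZMod.val_lt i
    have h1 := hrm c.val i.val hc hi
    have h2 := hrm c'.val i.val hc' hi
    have h3 := cast_cases (by omega) (by omega) h0
    exact ZMod.val_injective n (hrow i.val c.val c'.val hi hc hc' h3)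
  · intro c i i' h
    have hc := ZMod.val_lt c
    have hi := ZMod.val_lt i
    have hi' := ZMod.val_lt i'
    have h0 : ((rm c.val i.val : ℕ) : ZMod n) = ((rm c.val i'.val : ℕ) : ZMod n) :=
      add_right_cancel h
    have h3 := natCast_inj_of_lt (hrm c.val i.val hc hi) (hrm c.val i'.val hc hi') h0
    exact ZMod.val_injective n (hcol c.val i.val i'.val hc hi hi' h3)

theorem val_cast {x : ℕ} (hx : x < n) : ((x : ZMod n)).val = x := ZMod.val_cast_of_lt hx

theorem trans_of [NeZero n] {f : ℕ → ℕ} (hrm : ∀ c r, c < n → r < n → rm c r < n)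
    (hf : ∀ r, r < n → f r < n)
    (hinj : ∀ r r', r < n → r' < n → f r = f r' → r = r')
    (hsym : ∀ r r', r < n → r' < n →
      (rm (f r) r + f r = rm (f r') r' + f r' ∨ rm (f r) r + f r = rm (f r') r' + f r' + n ∨
        rm (f r') r' + f r' = rm (f r) r + f r + n) → r = r') :
    IsTrans (sq n rm) (fun i => ((f i.val : ℕ) : ZMod n)) := by
  constructor
  · intro i i' h
    have hi := ZMod.val_lt i
    have hi' := ZMod.val_lt i'
    have h3 := natCast_inj_of_lt (hf _ hi) (hf _ hi') h
    exact ZMod.val_injective n (hinj _ _ hi hi' h3)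
  · intro i i' h
    have hi := ZMod.val_lt i
    have hi' := ZMod.val_lt i'
    simp only [sq, val_cast (hf _ hi), val_cast (hf _ hi')] at h
    have h1 := hrm _ _ (hf _ hi) hi
    have h2 := hrm _ _ (hf _ hi') hi'
    have h4 := hf _ hi
    have h5 := hf _ hi'
    have h0 : ((rm (f i.val) i.val + f i.val : ℕ) : ZMod n) =
        ((rm (f i'.val) i'.val + f i'.val : ℕ) : ZMod n) := by
      push_cast; exact h
    have h3 := cast_cases (by omega) (by omega) h0
    exact ZMod.val_injective n (hsym _ _ hi hi' h3)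

/-- the Delta-lemma with four special rows -/
theorem delta_four [NeZero n] {h b : ℕ} (hn : n = 2 * h) (hb : 2 < b) (hbn : b < n)
    (hfix : ∀ c r, c < n → r < n → r ≠ 0 → r ≠ 1 → r ≠ 2 → r ≠ b → rm c r = r)
    {f : ZMod n → ZMod n} (hf : IsTrans (sq n rm) f) :
    (n : ℤ) ∣ (rm (f 0).val 0 : ℤ) + ((rm (f 1).val 1 : ℤ) - 1) + ((rm (f 2).val 2 : ℤ) - 2)
      + ((rm (f (b : ZMod n)).val b : ℤ) - b) - h := by
  classical
  have h1 := delta_sum hn hf
  have hpos : 0 < n := Nat.pos_of_ne_zero (NeZero.ne n)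
  let G : ℕ → ℤ := fun r => (rm (f (r : ZMod n)).val r : ℤ) - r
  have h2 : (∑ i : ZMod n, (sq n rm i (f i) - i - f i)) = ((∑ r ∈ Finset.range n, G r : ℤ) : ZMod n) := by
    rw [Int.cast_sum]
    refine Finset.sum_bij' (fun x _ => x.val) (fun k _ => (k : ZMod n)) ?_ ?_ ?_ ?_ ?_
    · intro x _; exact Finset.mem_range.2 (ZMod.val_lt x)
    · intro k _; exact Finset.mem_univ _
    · intro x _; simp
    · intro k hk
      exact ZMod.val_cast_of_lt (Finset.mem_range.1 hk)
    · intro x _
      simp only [G, sq]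
      push_cast
      rw [ZMod.natCast_zmod_val]
      ring
  have h3 : (∑ r ∈ Finset.range n, G r) = ∑ r ∈ ({0, 1, 2, b} : Finset ℕ), G r := by
    symm
    refine Finset.sum_subset ?_ ?_
    · intro r hr
      simp only [Finset.mem_insert, Finset.mem_singleton] at hr
      rw [Finset.mem_range]
      omega
    · intro r hr hr'
      simp only [Finset.mem_insert, Finset.mem_singleton, not_or] at hr'
      simp only [G]
      rw [hfix _ r (ZMod.val_lt _) (Finset.mem_range.1 hr) hr'.1 hr'.2.1 hr'.2.2.1 hr'.2.2.2]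
      ring
  have h4 : (∑ r ∈ ({0, 1, 2, b} : Finset ℕ), G r) = G 0 + (G 1 + (G 2 + G b)) := by
    rw [Finset.sum_insert (by simp; omega), Finset.sum_insert (by simp; omega),
      Finset.sum_insert (by simp; omega), Finset.sum_singleton]
  rw [h2, h3, h4] at h1
  have h5 : (((G 0 + (G 1 + (G 2 + G b)) - (h : ℤ) : ℤ)) : ZMod n) = 0 := by
    push_cast at h1 ⊢
    rw [h1]; ring
  rw [ZMod.intCast_zmod_eq_zero_iff_dvd] at h5
  have h6 : (rm (f 0).val 0 : ℤ) + ((rm (f 1).val 1 : ℤ) - 1) + ((rm (f 2).val 2 : ℤ) - 2)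
      + ((rm (f (b : ZMod n)).val b : ℤ) - b) - h = G 0 + (G 1 + (G 2 + G b)) - (h : ℤ) := by
    simp only [G]
    push_cast
    ring
  rw [h6]
  exact h5

theorem small_dvd {m x : ℤ} (h : m ∣ x) (h1 : -m < x) (h2 : x < m) : x = 0 := by
  obtain ⟨k, rfl⟩ := h
  rcases lt_trichotomy k 0 with hk | hk | hk
  · nlinarith
  · simp [hk]
  · nlinarith

end Pool.Agent.Hhelper51.LT
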