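import Mathlib
import Pool.Agent.Hhelper51.LT.Base1

set_option autoImplicit false
set_option linter.unusedVariables false

/-!
Base with two hitting cells for `n = 4b - 4`, `b >= 5`: rows `0, 1, 2, b`.
-/

namespace Pool.Agent.Hhelper51.LT

open Finset Pool.Agent.Hhelper79.LT

namespace B2

def s0 (b c : ℕ) : ℕ :=
  if c = 0 ∨ c = b then b else if b % 2 = 0 ∧ (c = 2 * b ∨ c = 4 * b - 5) then 1
  else if 2 * b ≤ c ∧ c ≤ 4 * b - 6 ∧ (c + b) % 2 = 1 then 2 else 0

def s1 (b c : ℕ) : ℕ :=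
  if b % 2 = 0 ∧ (c = 2 * b - 1 ∨ c = 4 * b - 6) then 2
  else if b % 2 = 0 ∧ (c = 2 * b ∨ c = 4 * b - 5) then 0 else 1

def s2 (b c : ℕ) : ℕ :=
  if c = 2 * b - 2 ∨ c = 3 * b - 4 then b
  else if b % 2 = 0 ∧ (c = 2 * b - 1 ∨ c = 4 * b - 6) then 1
  else if 2 * b ≤ c ∧ c ≤ 4 * b - 6 ∧ (c + b) % 2 = 1 then 0 else 2

def sb (b c : ℕ) : ℕ :=
  if c = 0 ∨ c = b then 0 else if c = 2 * b - 2 ∨ c = 3 * b - 4 then 2 else b

def rm (b : ℕ) : ℕ → ℕ → ℕ := rmOf b (s0 b) (s1 b) (s2 b) (sb b)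

def f (b r : ℕ) : ℕ :=
  if r = 0 then 0 else if r = 1 then 3 * b - 4 else if r = 2 then 2 * b - 2
  else if r ≤ b then r + b - 4 else if r ≤ 2 * b - 3 then r + b - 2
  else if r ≤ 3 * b - 4 then r + b - 1 else if r = 3 * b - 3 then 2 * b - 3
  else r - (3 * b - 3)

def g (b r : ℕ) : ℕ :=
  if r = 0 then b else if r = 1 then 0 else if r = 2 then 3 * b - 4
  else if r = b then b - 1 else if r ≤ 2 * b - 1 then r + (2 * b - 4)
  else if r ≤ 3 * b - 3 then r - (2 * b - 1)
  else r - (2 * b - 3)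

variable {b : ℕ}

theorem rm_lt (hb : 5 ≤ b) (c r : ℕ) (hr : r < 4 * b - 4) : rm b c r < 4 * b - 4 := by
  unfold rm rmOf s0 s1 s2 sb
  split_ifs <;> omega

theorem col_inj (hb : 5 ≤ b) (c r r' : ℕ) (hc : c < 4 * b - 4) (hr : r < 4 * b - 4)
    (hr' : r' < 4 * b - 4) (h : rm b c r = rm b c r') : r = r' := by
  have key : (s0 b c ≠ s1 b c ∧ s0 b c ≠ s2 b c ∧ s0 b c ≠ sb b c ∧ s1 b c ≠ s2 b c ∧
      s1 b c ≠ sb b c ∧ s2 b c ≠ sb b c) := by
    unfold s0 s1 s2 sb
    refine ⟨?_, ?_, ?_, ?_, ?_, ?_⟩ <;> split_ifs <;> omega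
  have k0 : s0 b c = 0 ∨ s0 b c = 1 ∨ s0 b c = 2 ∨ s0 b c = b := by
    unfold s0; split_ifs <;> omega
  have k1 : s1 b c = 0 ∨ s1 b c = 1 ∨ s1 b c = 2 ∨ s1 b c = b := by
    unfold s1; split_ifs <;> omega
  have k2 : s2 b c = 0 ∨ s2 b c = 1 ∨ s2 b c = 2 ∨ s2 b c = b := by
    unfold s2; split_ifs <;> omega
  have kb : sb b c = 0 ∨ sb b c = 1 ∨ sb b c = 2 ∨ sb b c = b := by
    unfold sb; split_ifs <;> omega
  unfold rm rmOf at h
  split_ifs at h <;> omega

theorem row_inj (hb : 5 ≤ b) (r c c' : ℕ) (hr : r < 4 * b - 4) (hc : c < 4 * b - 4)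
    (hc' : c' < 4 * b - 4)
    (h : rm b c r + c = rm b c' r + c' ∨ rm b c r + c = rm b c' r + c' + (4 * b - 4) ∨
        rm b c' r + c' = rm b c r + c + (4 * b - 4)) : c = c' := by
  unfold rm rmOf at h
  by_cases h0 : r = 0
  · subst h0
    simp only [if_true] at h
    unfold s0 at h
    split_ifs at h <;> omega
  · by_cases h1 : r = 1
    · subst h1
      simp only [if_true, if_neg h0] at h
      unfold s1 at h
      split_ifs at h <;> omega
    · by_cases h2 : r = 2
      · subst h2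
        simp only [if_true, if_neg h0, if_neg h1] at h
        unfold s2 at h
        split_ifs at h <;> omega
      · by_cases h3 : r = b
        · subst h3
          simp only [if_true, if_neg h0, if_neg h1, if_neg h2] at h
          unfold sb at h
          split_ifs at h <;> omega
        · simp only [if_neg h0, if_neg h1, if_neg h2, if_neg h3] at h
          omega

theorem f_lt (hb : 5 ≤ b) (r : ℕ) (hr : r < 4 * b - 4) : f b r < 4 * b - 4 := by
  unfold f
  split_ifs <;> omega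

theorem f_inj (hb : 5 ≤ b) (r r' : ℕ) (hr : r < 4 * b - 4) (hr' : r' < 4 * b - 4)
    (h : f b r = f b r') : r = r' := by
  unfold f at h
  split_ifs at h <;> omega

theorem rm_f (hb : 5 ≤ b) (r : ℕ) : rm b (f b r) r = if r = 0 ∨ r = 2 then b else r := by
  by_cases h0 : r = 0
  · subst h0
    simp [rm, rmOf, f, s0]
  · by_cases h1 : r = 1
    · subst h1
      have : s1 b (3 * b - 4) = 1 := by unfold s1; rw [if_neg (by omega), if_neg (by omega)]
      simp [rm, rmOf, f, this]
    · by_cases h2 : r = 2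
      · subst h2
        simp [rm, rmOf, f, s2]
      · by_cases h3 : r = b
        · have e : f b b = 2 * b - 4 := by unfold f; split_ifs <;> omega
          have e2 : sb b (2 * b - 4) = b := by unfold sb; split_ifs <;> omega
          rw [if_neg (by tauto)]
          rw [h3, e]
          rw [h3] at h0 h1 h2
          unfold rm rmOf
          rw [if_neg h0, if_neg h1, if_neg h2, if_pos rfl, e2]
        · unfold rm rmOf
          rw [if_neg h0, if_neg h1, if_neg h2, if_neg h3, if_neg (by omega)]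

theorem sym_inj_f (hb : 5 ≤ b) (r r' : ℕ) (hr : r < 4 * b - 4) (hr' : r' < 4 * b - 4)
    (h : rm b (f b r) r + f b r = rm b (f b r') r' + f b r' ∨
      rm b (f b r) r + f b r = rm b (f b r') r' + f b r' + (4 * b - 4) ∨
      rm b (f b r') r' + f b r' = rm b (f b r) r + f b r + (4 * b - 4)) : r = r' := by
  rw [rm_f hb, rm_f hb] at h
  unfold f at h
  split_ifs at h <;> omega

theorem g_lt (hb : 5 ≤ b) (r : ℕ) (hr : r < 4 * b - 4) : g b r < 4 * b - 4 := by
  unfold g
  split_ifs <;> omega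

theorem g_inj (hb : 5 ≤ b) (r r' : ℕ) (hr : r < 4 * b - 4) (hr' : r' < 4 * b - 4)
    (h : g b r = g b r') : r = r' := by
  unfold g at h
  split_ifs at h <;> omega

theorem rm_g (hb : 5 ≤ b) (r : ℕ) : rm b (g b r) r = if r = 0 ∨ r = 2 then b else r := by
  by_cases h0 : r = 0
  · subst h0
    simp [rm, rmOf, g, s0]
  · by_cases h1 : r = 1
    · subst h1
      have : s1 b 0 = 1 := by unfold s1; rw [if_neg (by omega), if_neg (by omega)]
      simp [rm, rmOf, g, this]
    · by_cases h2 : r = 2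
      · subst h2
        simp [rm, rmOf, g, s2]
      · by_cases h3 : r = b
        · have e : g b b = b - 1 := by unfold g; split_ifs <;> omega
          have e2 : sb b (b - 1) = b := by unfold sb; split_ifs <;> omega
          rw [if_neg (by tauto)]
          rw [h3, e]
          rw [h3] at h0 h1 h2
          unfold rm rmOf
          rw [if_neg h0, if_neg h1, if_neg h2, if_pos rfl, e2]
        · unfold rm rmOf
          rw [if_neg h0, if_neg h1, if_neg h2, if_neg h3, if_neg (by omega)]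

theorem sym_inj_g (hb : 5 ≤ b) (r r' : ℕ) (hr : r < 4 * b - 4) (hr' : r' < 4 * b - 4)
    (h : rm b (g b r) r + g b r = rm b (g b r') r' + g b r' ∨
      rm b (g b r) r + g b r = rm b (g b r') r' + g b r' + (4 * b - 4) ∨
      rm b (g b r') r' + g b r' = rm b (g b r) r + g b r + (4 * b - 4)) : r = r' := by
  rw [rm_g hb, rm_g hb] at h
  unfold g at h
  split_ifs at h <;> omega

theorem f_ne_g (hb : 5 ≤ b) (r : ℕ) (hr : r < 4 * b - 4) : f b r ≠ g b r := by
  unfold f g
  split_ifs <;> omega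

end B2

end Pool.Agent.Hhelper51.LT
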