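import Mathlib
import Pool.Agent.Hhelper51.LT.Base2

set_option autoImplicit false
set_option linter.unusedVariables false

/-!
`m = 1, 5` (`n = 4b - 4`, `b >= 6`, resp. `b >= 7`) and `m = 2` (`b >= 5`).
-/

namespace Pool.Agent.Hhelper51.LT

open Finset Pool.Agent.Hhelper79.LT

theorem val_sub_cases {n : ℕ} [NeZero n] (c i : ZMod n) :
    (i.val ≤ c.val ∧ (c - i).val = c.val - i.val) ∨
      (c.val < i.val ∧ (c - i).val = c.val + n - i.val) := by
  have hc := ZMod.val_lt c
  have hi := ZMod.val_lt i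
  rcases Nat.lt_or_ge c.val i.val with h | h
  · right
    refine ⟨h, ?_⟩
    have e : c - i = ((c.val + n - i.val : ℕ) : ZMod n) := by
      rw [Nat.cast_sub (by omega)]
      push_cast
      simp
    rw [e]
    exact ZMod.val_cast_of_lt (by omega)
  · left
    exact ⟨h, ZMod.val_sub h⟩

theorem mod_h_cases {h d u : ℕ} (hd : d < 2 * h) (hm : d % h = u) : d = u ∨ d = u + h := by
  rcases Nat.lt_or_ge d h with h1 | h1
  · left; rw [← hm, Nat.mod_eq_of_lt h1]
  · right
    rw [Nat.mod_eq_sub_mod h1, Nat.mod_eq_of_lt (by omega)] at hm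
    omega

namespace B1

variable {b : ℕ}

theorem rm_zero (c : ℕ) : rm b c 0 = s0 b c := by simp [rm, rmOf]

theorem rm_one (c : ℕ) : rm b c 1 = s1 b c := by simp [rm, rmOf]

theorem rm_two (c : ℕ) : rm b c 2 = s2 b c := by simp [rm, rmOf]

theorem rm_b (hb : 6 ≤ b) (c : ℕ) : rm b c b = sb b c := by
  unfold rm rmOf
  rw [if_neg (by omega), if_neg (by omega), if_neg (by omega), if_pos rfl]

theorem rm_fix (c r : ℕ) (h0 : r ≠ 0) (h1 : r ≠ 1) (h2 : r ≠ 2) (h3 : r ≠ b) : rm b c r = r := by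
  unfold rm rmOf
  rw [if_neg h0, if_neg h1, if_neg h2, if_neg h3]

theorem hits (hb : 6 ≤ b) [NeZero (4 * b - 4)] :
    Hits (sq (4 * b - 4) (rm b)) {((2 : ZMod (4 * b - 4)), ((3 * b - 2 : ℕ) : ZMod (4 * b - 4)))} := by
  intro f hf
  have h1 := delta_four (h := 2 * b - 2) (b := b) (by omega) (by omega) (by omega)
    (fun c r _ _ h0 h1 h2 h3 => rm_fix c r h0 h1 h2 h3) hf
  by_contra hcon
  have h2 : (f 2).val ≠ 3 * b - 2 := by
    intro e
    apply hcon
    refine ⟨2, ?_⟩
    rw [Finset.mem_singleton, ← e, ZMod.natCast_zmod_val]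
  rw [rm_zero, rm_one, rm_two, rm_b hb] at h1
  have b0 : s0 b (f 0).val ≤ b := by unfold s0; split_ifs <;> omega
  have b1 : s1 b (f 1).val ≤ 2 := by unfold s1; split_ifs <;> omega
  have b2 : s2 b (f 2).val ≤ 2 := by unfold s2; rw [if_neg h2]; split_ifs <;> omega
  have b3 : sb b (f (b : ZMod (4 * b - 4))).val ≤ b := by unfold sb; split_ifs <;> omega
  have h4 := small_dvd h1 (by omega) (by omega)
  omega

theorem latin (hb : 6 ≤ b) [NeZero (4 * b - 4)] : IsLatin (sq (4 * b - 4) (rm b)) :=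
  latin_of (fun c r _ hr => rm_lt hb c r hr) (fun c r r' hc hr hr' => col_inj hb c r r' hc hr hr')
    (fun r c c' hr hc hc' => row_inj hb r c c' hr hc hc')

theorem trans (hb : 6 ≤ b) [NeZero (4 * b - 4)] :
    IsTrans (sq (4 * b - 4) (rm b)) (fun i => ((f b i.val : ℕ) : ZMod (4 * b - 4))) :=
  trans_of (fun c r _ hr => rm_lt hb c r hr) (fun r hr => f_lt hb r hr)
    (fun r r' hr hr' => f_inj hb r r' hr hr') (fun r r' hr hr' => sym_inj hb r r' hr hr')

theorem std (hb : 7 ≤ b) [NeZero (4 * b - 4)] (i c : ZMod (4 * b - 4))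
    (h : (c - i).val % (2 * b - 2) = 3 ∨ (c - i).val % (2 * b - 2) = 4) :
    sq (4 * b - 4) (rm b) i c = i + c := by
  have hlt := ZMod.val_lt (c - i)
  have hc := ZMod.val_lt c
  have hi := ZMod.val_lt i
  have h1 : (c - i).val = 3 ∨ (c - i).val = 4 ∨ (c - i).val = 3 + (2 * b - 2) ∨
      (c - i).val = 4 + (2 * b - 2) := by
    rcases h with h | h
    · have := mod_h_cases (by omega) h; omega
    · have := mod_h_cases (by omega) h; omega
  have h2 := val_sub_cases c i
  have h3 : rm b c.val i.val = i.val := by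
    generalize (c - i).val = d at *
    generalize i.val = x at *
    generalize c.val = y at *
    unfold rm rmOf
    split_ifs with g0 g1 g2 g3
    · subst g0; unfold s0
      rw [if_neg (by omega), if_neg (by omega), if_neg (by omega)]
    · subst g1; unfold s1
      rw [if_neg (by omega), if_neg (by omega)]
    · subst g2; unfold s2
      rw [if_neg (by omega), if_neg (by omega), if_neg (by omega), if_neg (by omega)]
    · rw [g3] at h2
      unfold sb
      rw [if_neg (by omega), if_neg (by omega), g3]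
    · rfl
  unfold sq
  rw [h3, ZMod.natCast_zmod_val]

theorem avoid (hb : 7 ≤ b) [NeZero (4 * b - 4)] (i : ZMod (4 * b - 4)) :
    ¬ ((((f b i.val : ℕ) : ZMod (4 * b - 4)) - i).val % (2 * b - 2) = 3 ∨
      (((f b i.val : ℕ) : ZMod (4 * b - 4)) - i).val % (2 * b - 2) = 4) := by
  intro h
  have hlt := ZMod.val_lt (((f b i.val : ℕ) : ZMod (4 * b - 4)) - i)
  have hi := ZMod.val_lt i
  have hf := f_lt (by omega : 6 ≤ b) i.val hi
  have hv : (((f b i.val : ℕ) : ZMod (4 * b - 4))).val = f b i.val := ZMod.val_cast_of_lt hf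
  have h2 := val_sub_cases (((f b i.val : ℕ) : ZMod (4 * b - 4))) i
  rw [hv] at h2
  generalize (((f b i.val : ℕ) : ZMod (4 * b - 4)) - i).val = d at *
  have h1 : d = 3 ∨ d = 4 ∨ d = 3 + (2 * b - 2) ∨ d = 4 + (2 * b - 2) := by
    rcases h with h | h
    · have := mod_h_cases (by omega) h; omega
    · have := mod_h_cases (by omega) h; omega
  clear h hv
  generalize i.val = x at *
  unfold f at h2
  split_ifs at h2 <;> omega

end B1

theorem attains_one {b : ℕ} (hb : 6 ≤ b) : Attains (4 * b - 4) 1 := by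
  have : NeZero (4 * b - 4) := ⟨by omega⟩
  refine ⟨_, B1.latin hb, ⟨_, ?_, B1.hits hb⟩, Unit, inferInstance,
    fun _ i => ((B1.f b i.val : ℕ) : ZMod (4 * b - 4)), ?_, fun _ => B1.trans hb, ?_⟩
  · simp
  · simp
  · intro k l hkl
    exact absurd rfl hkl

theorem attains_five {b : ℕ} (hb : 7 ≤ b) : Attains (4 * b - 4) 5 := by
  have : NeZero (4 * b - 4) := ⟨by omega⟩
  have hn : 4 * b - 4 = 2 * (2 * b - 2) := by omega
  have hbase := base_of_nat (h := 2 * b - 2) hn (B1.latin (b := b) (by omega)) (U := {3})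
    (by intro u hu; rw [Finset.mem_singleton] at hu; omega)
    (by
      intro u hu v hv
      rw [Finset.mem_singleton] at hu hv
      omega)
    (by
      intro u hu i c h
      rw [Finset.mem_singleton] at hu
      subst hu
      exact B1.std hb i c h)
  have h := assemble_le (h := 2 * b - 2) hn (by omega) hbase (r := 1) _ (by simp)
    (B1.hits (b := b) (by omega)) (κ := Unit) (by simp)
    (fun _ i => ((B1.f b i.val : ℕ) : ZMod (4 * b - 4))) (fun _ => B1.trans (by omega))
    (fun k l hkl => absurd rfl hkl)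
    (by
      intro k i t ht
      unfold castSet at ht
      simp only [Finset.image_singleton, Finset.mem_singleton] at ht
      subst ht
      rw [blk_iff hn 3, Nat.mod_eq_of_lt (show 3 < 2 * b - 2 by omega),
        Nat.mod_eq_of_lt (show 3 + 1 < 2 * b - 2 by omega)]
      exact B1.avoid hb i) (j := 1) (by simp [castSet])
  exact h

namespace B2

variable {b : ℕ}

theorem rm_zero (c : ℕ) : rm b c 0 = s0 b c := by simp [rm, rmOf]

theorem rm_one (c : ℕ) : rm b c 1 = s1 b c := by simp [rm, rmOf]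

theorem rm_two (c : ℕ) : rm b c 2 = s2 b c := by simp [rm, rmOf]

theorem rm_b (hb : 5 ≤ b) (c : ℕ) : rm b c b = sb b c := by
  unfold rm rmOf
  rw [if_neg (by omega), if_neg (by omega), if_neg (by omega), if_pos rfl]

theorem rm_fix (c r : ℕ) (h0 : r ≠ 0) (h1 : r ≠ 1) (h2 : r ≠ 2) (h3 : r ≠ b) : rm b c r = r := by
  unfold rm rmOf
  rw [if_neg h0, if_neg h1, if_neg h2, if_neg h3]

theorem hits (hb : 5 ≤ b) [NeZero (4 * b - 4)] :
    Hits (sq (4 * b - 4) (rm b)) {((0 : ZMod (4 * b - 4)), (0 : ZMod (4 * b - 4))),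
      ((0 : ZMod (4 * b - 4)), ((b : ℕ) : ZMod (4 * b - 4)))} := by
  intro f hf
  have h1 := delta_four (h := 2 * b - 2) (b := b) (by omega) (by omega) (by omega)
    (fun c r _ _ h0 h1 h2 h3 => rm_fix c r h0 h1 h2 h3) hf
  by_contra hcon
  have h2 : (f 0).val ≠ 0 := by
    intro e
    apply hcon
    refine ⟨0, ?_⟩
    have : f 0 = 0 := by rwa [ZMod.val_eq_zero] at e
    simp [this]
  have h3 : (f 0).val ≠ b := by
    intro e
    apply hcon
    refine ⟨0, ?_⟩
    rw [Finset.mem_insert, Finset.mem_singleton]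
    right
    have e2 : f 0 = ((b : ℕ) : ZMod (4 * b - 4)) := by
      rw [← ZMod.natCast_zmod_val (f 0)]
      exact congrArg _ e
    rw [e2]
  rw [rm_zero, rm_one, rm_two, rm_b hb] at h1
  have b0 : s0 b (f 0).val ≤ 2 := by unfold s0; rw [if_neg (by omega)]; split_ifs <;> omega
  have b1 : s1 b (f 1).val ≤ 2 := by unfold s1; split_ifs <;> omega
  have b1' : b % 2 = 0 ∨ s1 b (f 1).val = 1 := by unfold s1; split_ifs <;> omega
  have b2 : s2 b (f 2).val ≤ b := by unfold s2; split_ifs <;> omega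
  have b3 : sb b (f (b : ZMod (4 * b - 4))).val ≤ b := by unfold sb; split_ifs <;> omega
  have h4 := small_dvd h1 (by omega) (by omega)
  omega

theorem latin (hb : 5 ≤ b) [NeZero (4 * b - 4)] : IsLatin (sq (4 * b - 4) (rm b)) :=
  latin_of (fun c r _ hr => rm_lt hb c r hr) (fun c r r' hc hr hr' => col_inj hb c r r' hc hr hr')
    (fun r c c' hr hc hc' => row_inj hb r c c' hr hc hc')

theorem trans_f (hb : 5 ≤ b) [NeZero (4 * b - 4)] :
    IsTrans (sq (4 * b - 4) (rm b)) (fun i => ((f b i.val : ℕ) : ZMod (4 * b - 4))) :=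
  trans_of (fun c r _ hr => rm_lt hb c r hr) (fun r hr => f_lt hb r hr)
    (fun r r' hr hr' => f_inj hb r r' hr hr') (fun r r' hr hr' => sym_inj_f hb r r' hr hr')

theorem trans_g (hb : 5 ≤ b) [NeZero (4 * b - 4)] :
    IsTrans (sq (4 * b - 4) (rm b)) (fun i => ((g b i.val : ℕ) : ZMod (4 * b - 4))) :=
  trans_of (fun c r _ hr => rm_lt hb c r hr) (fun r hr => g_lt hb r hr)
    (fun r r' hr hr' => g_inj hb r r' hr hr') (fun r r' hr hr' => sym_inj_g hb r r' hr hr')

theorem ne_fg (hb : 5 ≤ b) [NeZero (4 * b - 4)] (i : ZMod (4 * b - 4)) :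
    ((f b i.val : ℕ) : ZMod (4 * b - 4)) ≠ ((g b i.val : ℕ) : ZMod (4 * b - 4)) := by
  intro e
  have hi := ZMod.val_lt i
  exact f_ne_g hb i.val hi (natCast_inj_of_lt (f_lt hb _ hi) (g_lt hb _ hi) e)

end B2

theorem attains_two {b : ℕ} (hb : 5 ≤ b) : Attains (4 * b - 4) 2 := by
  have : NeZero (4 * b - 4) := ⟨by omega⟩
  refine ⟨_, B2.latin hb, ⟨_, Finset.card_le_two, B2.hits hb⟩, Bool, inferInstance,
    fun k i => if k then ((B2.f b i.val : ℕ) : ZMod (4 * b - 4))
      else ((B2.g b i.val : ℕ) : ZMod (4 * b - 4)), ?_, ?_, ?_⟩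
  · simp
  · intro k
    cases k
    · simpa using B2.trans_g hb
    · simpa using B2.trans_f hb
  · intro k l hkl i
    cases k <;> cases l
    · exact absurd rfl hkl
    · simpa using (B2.ne_fg hb i).symm
    · simpa using B2.ne_fg hb i
    · exact absurd rfl hkl

/-- `m = 1` for `n = 4q`, `q >= 5` -/
theorem attains_one_q {q : ℕ} (hq : 5 ≤ q) : Attains (4 * q) 1 := by
  have := attains_one (b := q + 1) (by omega)
  rwa [show 4 * (q + 1) - 4 = 4 * q by omega] at this

/-- `m = 2` for `n = 4q`, `q >= 4` -/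
theorem attains_two_q {q : ℕ} (hq : 4 ≤ q) : Attains (4 * q) 2 := by
  have := attains_two (b := q + 1) (by omega)
  rwa [show 4 * (q + 1) - 4 = 4 * q by omega] at this

/-- `m = 5` for `n = 4q`, `q >= 6` -/
theorem attains_five_q {q : ℕ} (hq : 6 ≤ q) : Attains (4 * q) 5 := by
  have := attains_five (b := q + 1) (by omega)
  rwa [show 4 * (q + 1) - 4 = 4 * q by omega] at this

end Pool.Agent.Hhelper51.LT
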