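import Mathlib
import Pool.Agent.Hhelper6.LT.Check

set_option autoImplicit false

/-!
Orders 16 and 20: the values `(16,1)`, `(16,5)`, `(20,5)` (certificates found by a SAT solver).
-/

namespace Pool.Agent.Hhelper51.LT

open Pool.Agent.Hhelper79.LT Pool.Agent.Hhelper6.LT

/-- the value 1 in order 16 -/
theorem attains_16_1 : Attains 16 1 :=
  attains_of_check (n := 16) (h := 8) (by norm_num) (by norm_num)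
    [[0, 1, 4, 8, 9, 5, 6, 7, 13, 14, 10, 11, 12, 2, 3, 15], [1, 3, 2, 5, 4, 6, 7, 8, 9, 10, 11,
      12, 13, 14, 15, 0], [5, 2, 3, 4, 6, 7, 8, 9, 10, 11, 12, 13, 14, 15, 0, 1], [3, 4, 5, 6, 7,
      8, 9, 10, 11, 12, 13, 14, 15, 0, 1, 2], [4, 5, 6, 7, 8, 9, 10, 11, 12, 13, 14, 15, 0, 1, 2,
      3], [2, 6, 7, 3, 5, 10, 11, 12, 8, 9, 15, 0, 1, 13, 14, 4], [6, 7, 8, 9, 10, 11, 12, 13, 14,
      15, 0, 1, 2, 3, 4, 5], [7, 8, 9, 10, 11, 12, 13, 14, 15, 0, 1, 2, 3, 4, 5, 6], [8, 9, 10,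
      11, 12, 13, 14, 15, 0, 1, 2, 3, 4, 5, 6, 7], [9, 10, 11, 12, 13, 14, 15, 0, 1, 2, 3, 4, 5,
      6, 7, 8], [10, 11, 12, 13, 14, 15, 0, 1, 2, 3, 4, 5, 6, 7, 8, 9], [11, 12, 13, 14, 15, 0, 1,
      2, 3, 4, 5, 6, 7, 8, 9, 10], [12, 13, 14, 15, 0, 1, 2, 3, 4, 5, 6, 7, 8, 9, 10, 11], [13,
      14, 15, 0, 1, 2, 3, 4, 5, 6, 7, 8, 9, 10, 11, 12], [14, 15, 0, 1, 2, 3, 4, 5, 6, 7, 8, 9,
      10, 11, 12, 13], [15, 0, 1, 2, 3, 4, 5, 6, 7, 8, 9, 10, 11, 12, 13, 14]]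
    [(2, 0)]
    [[14, 12, 0, 9, 13, 11, 4, 2, 15, 6, 1, 3, 8, 5, 10, 7]]
    (by decide +kernel)

/-- the value 5 in order 16 -/
theorem attains_16_5 : Attains 16 5 :=
  attains_of_check (n := 16) (h := 8) (by norm_num) (by norm_num)
    [[0, 1, 4, 8, 9, 5, 6, 15, 13, 14, 10, 11, 12, 2, 3, 7], [1, 3, 2, 5, 4, 6, 7, 8, 9, 10, 11,
      12, 13, 14, 15, 0], [5, 2, 3, 4, 6, 7, 8, 9, 10, 11, 12, 13, 14, 15, 0, 1], [3, 4, 5, 6, 7,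
      8, 9, 10, 11, 12, 13, 14, 15, 0, 1, 2], [4, 5, 6, 7, 8, 9, 10, 11, 12, 13, 14, 15, 0, 1, 2,
      3], [2, 6, 7, 3, 5, 10, 11, 12, 8, 9, 15, 0, 1, 13, 14, 4], [6, 7, 8, 9, 10, 11, 12, 13, 14,
      15, 0, 1, 2, 3, 4, 5], [7, 8, 9, 10, 11, 12, 13, 14, 15, 0, 1, 2, 3, 4, 5, 6], [8, 9, 10,
      11, 12, 13, 14, 7, 0, 1, 2, 3, 4, 5, 6, 15], [9, 10, 11, 12, 13, 14, 15, 0, 1, 2, 3, 4, 5,
      6, 7, 8], [10, 11, 12, 13, 14, 15, 0, 1, 2, 3, 4, 5, 6, 7, 8, 9], [11, 12, 13, 14, 15, 0, 1,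
      2, 3, 4, 5, 6, 7, 8, 9, 10], [12, 13, 14, 15, 0, 1, 2, 3, 4, 5, 6, 7, 8, 9, 10, 11], [13,
      14, 15, 0, 1, 2, 3, 4, 5, 6, 7, 8, 9, 10, 11, 12], [14, 15, 0, 1, 2, 3, 4, 5, 6, 7, 8, 9,
      10, 11, 12, 13], [15, 0, 1, 2, 3, 4, 5, 6, 7, 8, 9, 10, 11, 12, 13, 14]]
    [(2, 0), (0, 7), (0, 15), (8, 7), (8, 15)]
    [[9, 8, 0, 12, 14, 7, 2, 10, 5, 1, 13, 11, 15, 3, 6, 4], [7, 13, 9, 10, 0, 5, 6, 1, 14, 12,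
      15, 8, 11, 4, 2, 3], [15, 12, 13, 11, 8, 6, 0, 3, 1, 9, 14, 10, 4, 7, 5, 2], [4, 14, 11, 9,
      2, 8, 15, 12, 7, 5, 10, 0, 6, 13, 3, 1], [8, 11, 12, 2, 6, 3, 14, 9, 15, 0, 1, 13, 5, 10, 4,
      7]]
    (by decide +kernel)

/-- the value 5 in order 20 -/
theorem attains_20_5 : Attains 20 5 :=
  attains_of_check (n := 20) (h := 10) (by norm_num) (by norm_num)
    [[6, 11, 2, 3, 4, 5, 12, 7, 8, 9, 10, 1, 18, 13, 14, 15, 16, 17, 0, 19], [1, 2, 3, 4, 5, 6,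
      7, 8, 9, 10, 11, 12, 13, 14, 15, 16, 17, 18, 19, 0], [0, 3, 4, 5, 6, 7, 8, 9, 10, 11, 12,
      13, 14, 15, 16, 17, 2, 19, 18, 1], [3, 4, 5, 6, 7, 8, 9, 10, 11, 12, 13, 14, 15, 16, 17, 18,
      19, 0, 1, 2], [4, 5, 6, 7, 8, 9, 10, 11, 12, 13, 14, 15, 16, 17, 18, 19, 0, 1, 2, 3], [5, 6,
      7, 8, 9, 10, 11, 12, 13, 14, 15, 16, 17, 18, 19, 0, 1, 2, 3, 4], [2, 7, 8, 9, 10, 11, 6, 13,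
      14, 15, 16, 17, 12, 19, 0, 1, 18, 3, 4, 5], [7, 8, 9, 10, 11, 12, 13, 14, 15, 16, 17, 18,
      19, 0, 1, 2, 3, 4, 5, 6], [8, 9, 10, 11, 12, 13, 14, 15, 16, 17, 18, 19, 0, 1, 2, 3, 4, 5,
      6, 7], [9, 10, 11, 12, 13, 14, 15, 16, 17, 18, 19, 0, 1, 2, 3, 4, 5, 6, 7, 8], [10, 1, 12,
      13, 14, 15, 16, 17, 18, 19, 0, 11, 2, 3, 4, 5, 6, 7, 8, 9], [11, 12, 13, 14, 15, 16, 17, 18,
      19, 0, 1, 2, 3, 4, 5, 6, 7, 8, 9, 10], [12, 13, 14, 15, 16, 17, 18, 19, 0, 1, 2, 3, 4, 5, 6,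
      7, 8, 9, 10, 11], [13, 14, 15, 16, 17, 18, 19, 0, 1, 2, 3, 4, 5, 6, 7, 8, 9, 10, 11, 12],
      [14, 15, 16, 17, 18, 19, 0, 1, 2, 3, 4, 5, 6, 7, 8, 9, 10, 11, 12, 13], [15, 16, 17, 18, 19,
      0, 1, 2, 3, 4, 5, 6, 7, 8, 9, 10, 11, 12, 13, 14], [16, 17, 18, 19, 0, 1, 2, 3, 4, 5, 6, 7,
      8, 9, 10, 11, 12, 13, 14, 15], [17, 18, 19, 0, 1, 2, 3, 4, 5, 6, 7, 8, 9, 10, 11, 12, 13,
      14, 15, 16], [18, 19, 0, 1, 2, 3, 4, 5, 6, 7, 8, 9, 10, 11, 12, 13, 14, 15, 16, 17], [19, 0,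
      1, 2, 3, 4, 5, 6, 7, 8, 9, 10, 11, 12, 13, 14, 15, 16, 17, 18]]
    [(2, 16), (0, 1), (0, 11), (10, 1), (10, 11)]
    [[12, 18, 16, 14, 10, 11, 3, 8, 0, 4, 2, 19, 15, 13, 17, 6, 9, 7, 5, 1], [1, 0, 10, 16, 13,
      8, 2, 18, 7, 15, 4, 5, 14, 17, 9, 12, 6, 3, 11, 19], [11, 4, 17, 3, 12, 13, 9, 7, 5, 19, 0,
      1, 10, 14, 15, 16, 8, 6, 2, 18], [17, 5, 13, 19, 9, 0, 8, 3, 12, 2, 1, 16, 6, 11, 14, 4, 7,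
      15, 18, 10], [19, 17, 4, 12, 8, 18, 7, 15, 6, 0, 11, 14, 16, 3, 10, 5, 1, 13, 9, 2]]
    (by decide +kernel)

end Pool.Agent.Hhelper51.LT
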