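import Mathlib
import Pool.Agent.Hhelper51.LT.Frame

set_option autoImplicit false
set_option linter.unusedVariables false

/-!
The trade with hitting number three for `n = 4b - 2`, `b >= 3`: rows `0, 1, b, 2b`.
In column `0` the rows `0, 1, b, 2b` carry the symbols of the rows `b, 0, 2b, 1`; in column `b` the
rows `0, b` are exchanged; in column `2b - 1` the rows `1, 2b`; in the columns
`2b, ..., 4b - 3` the rows `0, 1`.
-/

namespace Pool.Agent.Hhelper51.LT

open Finset Pool.Agent.Hhelper79.LT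

/-- the Delta-lemma with the special rows `0, 1, b, d` -/
theorem delta_rows {n h b d : ℕ} {rm : ℕ → ℕ → ℕ} [NeZero n] (hn : n = 2 * h)
    (hb : 1 < b) (hbd : b < d) (hdn : d < n)
    (hfix : ∀ c r, c < n → r < n → r ≠ 0 → r ≠ 1 → r ≠ b → r ≠ d → rm c r = r)
    {f : ZMod n → ZMod n} (hf : IsTrans (sq n rm) f) :
    (n : ℤ) ∣ (rm (f 0).val 0 : ℤ) + ((rm (f 1).val 1 : ℤ) - 1)
      + ((rm (f (b : ZMod n)).val b : ℤ) - b) + ((rm (f (d : ZMod n)).val d : ℤ) - d) - h := by
  classical
  have h1 := delta_sum hn hf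
  have hpos : 0 < n := Nat.pos_of_ne_zero (NeZero.ne n)
  let G : ℕ → ℤ := fun r => (rm (f (r : ZMod n)).val r : ℤ) - r
  have h2 : (∑ i : ZMod n, (sq n rm i (f i) - i - f i)) = ((∑ r ∈ Finset.range n, G r : ℤ) : ZMod n) := by
    rw [Int.cast_sum]
    refine Finset.sum_bij' (fun x _ => x.val) (fun k _ => (k : ZMod n)) ?_ ?_ ?_ ?_ ?_
    · intro x _; exact Finset.mem_range.2 (ZMod.val_lt x)
    · intro k _; exact Finset.mem_univ _
    · intro x _; simp
    · intro k hk
      exact ZMod.val_cast_of_lt (Finset.mem_range.1 hk)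
    · intro x _
      simp only [G, sq]
      push_cast
      rw [ZMod.natCast_zmod_val]
      ring
  have h3 : (∑ r ∈ Finset.range n, G r) = ∑ r ∈ ({0, 1, b, d} : Finset ℕ), G r := by
    symm
    refine Finset.sum_subset ?_ ?_
    · intro r hr
      simp only [Finset.mem_insert, Finset.mem_singleton] at hr
      rw [Finset.mem_range]
      omega
    · intro r hr hr'
      simp only [Finset.mem_insert, Finset.mem_singleton, not_or] at hr'
      simp only [G]
      rw [hfix _ r (ZMod.val_lt _) (Finset.mem_range.1 hr) hr'.1 hr'.2.1 hr'.2.2.1 hr'.2.2.2]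
      ring
  have h4 : (∑ r ∈ ({0, 1, b, d} : Finset ℕ), G r) = G 0 + (G 1 + (G b + G d)) := by
    rw [Finset.sum_insert (by simp; omega), Finset.sum_insert (by simp; omega),
      Finset.sum_insert (by simp; omega), Finset.sum_singleton]
  rw [h2, h3, h4] at h1
  have h5 : (((G 0 + (G 1 + (G b + G d)) - (h : ℤ) : ℤ)) : ZMod n) = 0 := by
    push_cast at h1 ⊢
    rw [h1]; ring
  rw [ZMod.intCast_zmod_eq_zero_iff_dvd] at h5
  have h6 : (rm (f 0).val 0 : ℤ) + ((rm (f 1).val 1 : ℤ) - 1)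
      + ((rm (f (b : ZMod n)).val b : ℤ) - b) + ((rm (f (d : ZMod n)).val d : ℤ) - d) - h
      = G 0 + (G 1 + (G b + G d)) - (h : ℤ) := by
    simp only [G]
    push_cast
    ring
  rw [h6]
  exact h5

namespace T3

/-- symbols of the rows `0, 1, b, 2b` (as rows of the addition table) -/
def s0 (b c : ℕ) : ℕ := if c = 0 ∨ c = b then b else if 2 * b ≤ c then 1 else 0

def s1 (b c : ℕ) : ℕ := if c = 0 ∨ 2 * b ≤ c then 0 else if c = 2 * b - 1 then 2 * b else 1

def sb (b c : ℕ) : ℕ := if c = 0 then 2 * b else if c = b then 0 else b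

def sd (b c : ℕ) : ℕ := if c = 0 ∨ c = 2 * b - 1 then 1 else 2 * b

/-- the row maps -/
def rm (b c r : ℕ) : ℕ :=
  if r = 0 then s0 b c else if r = 1 then s1 b c else if r = b then sb b c
  else if r = 2 * b then sd b c else r

variable {b : ℕ}

theorem rm_lt (hb : 3 ≤ b) (c r : ℕ) (hr : r < 4 * b - 2) : rm b c r < 4 * b - 2 := by
  unfold rm s0 s1 sb sd
  split_ifs <;> omega

theorem col_inj (hb : 3 ≤ b) (c r r' : ℕ) (hc : c < 4 * b - 2) (hr : r < 4 * b - 2)
    (hr' : r' < 4 * b - 2) (h : rm b c r = rm b c r') : r = r' := by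
  have key : (s0 b c ≠ s1 b c ∧ s0 b c ≠ sb b c ∧ s0 b c ≠ sd b c ∧ s1 b c ≠ sb b c ∧
      s1 b c ≠ sd b c ∧ sb b c ≠ sd b c) := by
    unfold s0 s1 sb sd
    refine ⟨?_, ?_, ?_, ?_, ?_, ?_⟩ <;> split_ifs <;> omega
  have k0 : s0 b c = 0 ∨ s0 b c = 1 ∨ s0 b c = b ∨ s0 b c = 2 * b := by
    unfold s0; split_ifs <;> omega
  have k1 : s1 b c = 0 ∨ s1 b c = 1 ∨ s1 b c = b ∨ s1 b c = 2 * b := by
    unfold s1; split_ifs <;> omega
  have kb : sb b c = 0 ∨ sb b c = 1 ∨ sb b c = b ∨ sb b c = 2 * b := by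
    unfold sb; split_ifs <;> omega
  have kd : sd b c = 0 ∨ sd b c = 1 ∨ sd b c = b ∨ sd b c = 2 * b := by
    unfold sd; split_ifs <;> omega
  unfold rm at h
  split_ifs at h <;> omega

theorem row_inj (hb : 3 ≤ b) (r c c' : ℕ) (hr : r < 4 * b - 2) (hc : c < 4 * b - 2)
    (hc' : c' < 4 * b - 2)
    (h : rm b c r + c = rm b c' r + c' ∨ rm b c r + c = rm b c' r + c' + (4 * b - 2) ∨
        rm b c' r + c' = rm b c r + c + (4 * b - 2)) : c = c' := by
  unfold rm at h
  by_cases h0 : r = 0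
  · subst h0
    simp only [if_true] at h
    unfold s0 at h
    split_ifs at h <;> omega
  · by_cases h1 : r = 1
    · subst h1
      simp only [if_true, if_neg h0] at h
      unfold s1 at h
      split_ifs at h <;> omega
    · by_cases h2 : r = b
      · subst h2
        simp only [if_true, if_neg h0, if_neg h1] at h
        unfold sb at h
        split_ifs at h <;> omega
      · by_cases h3 : r = 2 * b
        · subst h3
          simp only [if_true, if_neg h0, if_neg h1, if_neg h2] at h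
          unfold sd at h
          split_ifs at h <;> omega
        · simp only [if_neg h0, if_neg h1, if_neg h2, if_neg h3] at h
          omega

theorem latin {n : ℕ} (hn : n + 2 = 4 * b) (hb : 3 ≤ b) : IsLatin (sq n (rm b)) := by
  have hn' : n = 4 * b - 2 := by omega
  subst hn'
  have : NeZero (4 * b - 2) := ⟨by omega⟩
  exact latin_of (fun c r _ hr => rm_lt hb c r hr) (fun c r r' hc hr hr' h => col_inj hb c r r' hc hr hr' h)
    (fun r c c' hr hc hc' h => row_inj hb r c c' hr hc hc' h)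

/-- the hitting set -/
def H (n b : ℕ) : Finset (ZMod n × ZMod n) :=
  {(1, ((2 * b - 1 : ℕ) : ZMod n)), (((2 * b : ℕ) : ZMod n), 0),
    (((2 * b : ℕ) : ZMod n), ((2 * b - 1 : ℕ) : ZMod n))}

theorem H_card (n b : ℕ) : (H n b).card ≤ 3 := Finset.card_le_three

theorem hits {n : ℕ} (hn : n + 2 = 4 * b) (hb : 3 ≤ b) : Hits (sq n (rm b)) (H n b) := by
  have hne : NeZero n := ⟨by omega⟩
  intro f hf
  by_contra hcon
  push Not at hcon
  have hd := delta_rows (h := 2 * b - 1) (b := b) (d := 2 * b) (rm := rm b) (by omega) (by omega)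
    (by omega) (by omega) (fun c r _ _ h0 h1 h2 h3 => by
      unfold rm; rw [if_neg h0, if_neg h1, if_neg h2, if_neg h3]) hf
  -- the columns
  have v0 := ZMod.val_lt (f 0)
  have v1 := ZMod.val_lt (f 1)
  have vb := ZMod.val_lt (f (b : ZMod n))
  have vd := ZMod.val_lt (f ((2 * b : ℕ) : ZMod n))
  have hcast : ∀ x : ZMod n, ∀ k : ℕ, x.val = k → x = (k : ZMod n) := by
    intro x k hk; rw [← hk, ZMod.natCast_zmod_val]
  have a1 : (f 1).val ≠ 2 * b - 1 := by
    intro h
    apply hcon 1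
    rw [hcast _ _ h]
    simp [H]
  have a2 : (f ((2 * b : ℕ) : ZMod n)).val ≠ 0 := by
    intro h
    apply hcon ((2 * b : ℕ) : ZMod n)
    rw [hcast _ _ h]
    simp [H]
  have a3 : (f ((2 * b : ℕ) : ZMod n)).val ≠ 2 * b - 1 := by
    intro h
    apply hcon ((2 * b : ℕ) : ZMod n)
    rw [hcast _ _ h]
    simp [H]
  -- rows `0` and `b` are different
  have hb0 : (b : ZMod n) ≠ 0 := by
    intro h
    have := congrArg ZMod.val h
    rw [ZMod.val_cast_of_lt (by omega), ZMod.val_zero] at this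
    omega
  have hcol : (f 0).val ≠ (f (b : ZMod n)).val := by
    intro h
    exact hb0 (hf.1 (ZMod.val_injective n h)).symm
  have hsym : ¬ ((f 0).val = b ∧ (f (b : ZMod n)).val = 0) := by
    rintro ⟨h0, h1⟩
    apply hb0
    symm
    apply hf.2
    show sq n (rm b) 0 (f 0) = sq n (rm b) (b : ZMod n) (f (b : ZMod n))
    unfold sq
    rw [h0, h1, ZMod.val_zero, ZMod.val_cast_of_lt (show b < n by omega)]
    have e1 : rm b b 0 = b := by simp [rm, s0]
    have e2 : rm b 0 b = 2 * b := by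
      unfold rm sb
      rw [if_neg (by omega), if_neg (by omega), if_pos rfl, if_pos rfl]
    rw [e1, e2, hcast _ _ h0, hcast _ _ h1]
    push_cast
    ring
  have e0 : rm b (f 0).val 0 = s0 b (f 0).val := by simp [rm]
  have e1 : rm b (f 1).val 1 = s1 b (f 1).val := by simp [rm]
  have eb : rm b (f (b : ZMod n)).val b = sb b (f (b : ZMod n)).val := by
    unfold rm; rw [if_neg (by omega), if_neg (by omega), if_pos rfl]
  have ed : rm b (f ((2 * b : ℕ) : ZMod n)).val (2 * b) = sd b (f ((2 * b : ℕ) : ZMod n)).val := by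
    unfold rm; rw [if_neg (by omega), if_neg (by omega), if_neg (by omega), if_pos rfl]
  rw [e0, e1, eb, ed] at hd
  clear e0 e1 eb ed
  generalize (f 0).val = x0 at *
  generalize (f 1).val = x1 at *
  generalize (f (b : ZMod n)).val = xb at *
  generalize (f ((2 * b : ℕ) : ZMod n)).val = xd at *
  have q0 : s0 b x0 = 0 ∨ s0 b x0 = 1 ∨ (s0 b x0 = b ∧ (x0 = 0 ∨ x0 = b)) := by
    unfold s0; split_ifs <;> omega
  have q1 : s1 b x1 = 0 ∨ s1 b x1 = 1 := by
    unfold s1; split_ifs <;> omega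
  have qb : sb b xb = 0 ∨ sb b xb = b ∨ (sb b xb = 2 * b ∧ xb = 0) := by
    unfold sb; split_ifs <;> omega
  have qd : sd b xd = 2 * b := by
    unfold sd; split_ifs <;> omega
  have hz := small_dvd hd (by omega) (by omega)
  omega

end T3

end Pool.Agent.Hhelper51.LT
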